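import Pool.Agent.W326.HB.Contra

set_option autoImplicit false

namespace Pool.Agent.W326.HB

/-- the cocycle -/
noncomputable def ff (a b c x : F) : ℝ :=
  cw (x⁻¹).toWord (x⁻¹ * a).toWord (x⁻¹ * (a * b)).toWord (x⁻¹ * (a * b * c)).toWord

lemma sum_Kw_le' (g h1 h2 h3 : F) (s : Finset F) :
    ∑ x ∈ s, Kw (x⁻¹ * g).toWord (x⁻¹ * h1).toWord (x⁻¹ * h2).toWord (x⁻¹ * h3).toWord ≤ 96 := by
  classical
  have h := sum_Kw_le (g⁻¹ * h1) (g⁻¹ * h2) (g⁻¹ * h3) (s.image (fun x => g⁻¹ * x))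
  rw [Finset.sum_image] at h
  · refine le_trans (le_of_eq ?_) h
    apply Finset.sum_congr rfl
    intro x _
    simp only [mul_inv_rev, inv_inv, mul_assoc, mul_inv_cancel_left]
  · intro x _ y _ hxy
    exact mul_left_cancel hxy

lemma sum_ff_le (a b c : F) (s : Finset F) : ∑ x ∈ s, ff a b c x ^ 2 ≤ 384 := by
  have h0 := sum_Kw_le' 1 a (a * b) (a * b * c) s
  have h1 := sum_Kw_le' a 1 (a * b) (a * b * c) s
  have h2 := sum_Kw_le' (a * b) 1 a (a * b * c) s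
  have h3 := sum_Kw_le' (a * b * c) 1 a (a * b) s
  have h : ∑ x ∈ s, ff a b c x ^ 2 ≤ ∑ x ∈ s,
      (Kw (x⁻¹ * 1).toWord (x⁻¹ * a).toWord (x⁻¹ * (a * b)).toWord (x⁻¹ * (a * b * c)).toWord +
      Kw (x⁻¹ * a).toWord (x⁻¹ * 1).toWord (x⁻¹ * (a * b)).toWord (x⁻¹ * (a * b * c)).toWord +
      Kw (x⁻¹ * (a * b)).toWord (x⁻¹ * 1).toWord (x⁻¹ * a).toWord (x⁻¹ * (a * b * c)).toWord +
      Kw (x⁻¹ * (a * b * c)).toWord (x⁻¹ * 1).toWord (x⁻¹ * a).toWord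
        (x⁻¹ * (a * b)).toWord) := by
    apply Finset.sum_le_sum
    intro x _
    unfold ff
    rw [mul_one]
    exact cw_sq_le _ _ _ _
  rw [Finset.sum_add_distrib, Finset.sum_add_distrib, Finset.sum_add_distrib] at h
  linarith

lemma summable_ff (a b c : F) : Summable (fun x => ff a b c x ^ 2) :=
  summable_of_sum_le (fun _ => sq_nonneg _) (sum_ff_le a b c)

lemma tsum_ff_le (a b c : F) : ∑' x, ff a b c x ^ 2 ≤ 384 :=
  (summable_ff a b c).tsum_le_of_sum_le (sum_ff_le a b c)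

lemma ff_cocycle (g₁ g₂ g₃ g₄ x : F) :
    ff g₂ g₃ g₄ (g₁⁻¹ * x) - ff (g₁ * g₂) g₃ g₄ x + ff g₁ (g₂ * g₃) g₄ x
          - ff g₁ g₂ (g₃ * g₄) x + ff g₁ g₂ g₃ x = 0 := by
  unfold ff
  simp only [mul_inv_rev, inv_inv, mul_assoc]
  unfold cw
  ring

end Pool.Agent.W326.HB
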