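import Pool.Agent.W326.HB.Av

set_option autoImplicit false

namespace Pool.Agent.W326.HB

/-- average over two letters -/
noncomputable def A2 (f : Bool → ℝ) : ℝ := (f true + f false) / 2

lemma Av_succ' (n : ℕ) (f : List Bool → ℝ) :
    Av (n + 1) f = A2 fun b => Av n fun w => f (b :: w) := rfl

lemma A2_not (f : Bool → ℝ) : A2 (fun b => f (!b)) = A2 f := by
  unfold A2; simp only [Bool.not_true, Bool.not_false]; ring

lemma A2_const (c : ℝ) : A2 (fun _ => c) = c := by unfold A2; ring
lemma A2_add (f g : Bool → ℝ) : A2 (fun b => f b + g b) = A2 f + A2 g := by unfold A2; ring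
lemma A2_sub (f g : Bool → ℝ) : A2 (fun b => f b - g b) = A2 f - A2 g := by unfold A2; ring
lemma A2_mono (f g : Bool → ℝ) (h : ∀ b, f b ≤ g b) : A2 f ≤ A2 g := by
  unfold A2; have := h true; have := h false; linarith
lemma A2_sq_le (f : Bool → ℝ) : A2 f ^ 2 ≤ A2 (fun b => f b ^ 2) := by
  unfold A2; nlinarith [sq_nonneg (f true - f false)]
lemma A2_congr (f g : Bool → ℝ) (h : ∀ b, f b = g b) : A2 f = A2 g := by
  unfold A2; rw [h, h]
lemma A2_Av (n : ℕ) (f : Bool → List Bool → ℝ) :
    A2 (fun b => Av n (f b)) = Av n (fun w => A2 (fun b => f b w)) := by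
  unfold A2; rw [Av_div, Av_add]

/-- joint average over pairs of words branching exactly at `s` -/
noncomputable def T (s m : ℕ) (Φ : List Bool → List Bool → ℝ) : ℝ :=
  Av s fun p => A2 fun l => Av m fun y => Av m fun z => Φ (p ++ l :: y) (p ++ (!l) :: z)

lemma T_add (s m : ℕ) (Φ Ψ : List Bool → List Bool → ℝ) :
    T s m (fun w1 w2 => Φ w1 w2 + Ψ w1 w2) = T s m Φ + T s m Ψ := by
  unfold T
  simp only [Av_add, A2_add]

lemma T_sub (s m : ℕ) (Φ Ψ : List Bool → List Bool → ℝ) :
    T s m (fun w1 w2 => Φ w1 w2 - Ψ w1 w2) = T s m Φ - T s m Ψ := by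
  unfold T
  simp only [Av_sub, A2_sub]

lemma T_congr (s m : ℕ) (Φ Ψ : List Bool → List Bool → ℝ)
    (h : ∀ p l y z, p.length = s → y.length = m → z.length = m →
      Φ (p ++ l :: y) (p ++ (!l) :: z) = Ψ (p ++ l :: y) (p ++ (!l) :: z)) :
    T s m Φ = T s m Ψ := by
  unfold T
  refine Av_congr _ _ _ fun p hp => A2_congr _ _ fun l => Av_congr _ _ _ fun y hy =>
    Av_congr _ _ _ fun z hz => h p l y z hp hy hz

lemma T_mono (s m : ℕ) (Φ Ψ : List Bool → List Bool → ℝ)
    (h : ∀ p l y z, p.length = s → y.length = m → z.length = m →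
      Φ (p ++ l :: y) (p ++ (!l) :: z) ≤ Ψ (p ++ l :: y) (p ++ (!l) :: z)) :
    T s m Φ ≤ T s m Ψ := by
  unfold T
  refine Av_mono _ _ _ fun p hp => A2_mono _ _ fun l => Av_mono _ _ _ fun y hy =>
    Av_mono _ _ _ fun z hz => h p l y z hp hy hz

lemma T_sq_le (s m : ℕ) (Φ : List Bool → List Bool → ℝ) :
    T s m Φ ^ 2 ≤ T s m (fun w1 w2 => Φ w1 w2 ^ 2) := by
  unfold T
  refine (Av_sq_le _ _).trans (Av_mono _ _ _ fun p _ => (A2_sq_le _).trans (A2_mono _ _ fun l =>
    (Av_sq_le _ _).trans (Av_mono _ _ _ fun y _ => Av_sq_le _ _)))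

lemma T_left (s m : ℕ) (f : List Bool → ℝ) :
    T s m (fun w1 _ => f w1) = Av (s + (m + 1)) f := by
  unfold T
  rw [Av_append]
  simp only [Av_succ', Av_const]

/-- a factor depending on the second word only is killed -/
lemma T_right_mul_v (s m L : ℕ) (f : List Bool → ℝ) (h1 : s + 1 ≤ L) (h2 : L < s + 1 + m) :
    T s m (fun w1 w2 => f w2 * v L w1) = 0 := by
  unfold T
  have h : ∀ p : List Bool, p.length = s → (A2 fun l => Av m fun y => Av m fun z =>
      f (p ++ (!l) :: z) * v L (p ++ l :: y)) = 0 := by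
    intro p hp
    rw [A2_congr _ (fun _ => 0)]
    · exact A2_const 0
    · intro l
      rw [Av_comm]
      rw [Av_congr _ _ (fun _ => 0)]
      · exact Av_const _ _
      · intro z _
        rw [Av_mul_left]
        rw [Av_congr _ _ (v (L - s - 1))]
        · rw [Av_v _ _ (by omega), mul_zero]
        · intro y _
          rw [v_append_right _ _ _ (by omega), hp,
            show L - s = (L - s - 1) + 1 by omega, v_succ_cons, Nat.add_sub_cancel]
  rw [Av_congr _ _ (fun _ => 0) h]
  exact Av_const _ _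

lemma T_succ (s m : ℕ) (Φ : List Bool → List Bool → ℝ) :
    T (s + 1) m Φ = Av s fun p => A2 fun a => A2 fun l => Av m fun y => Av m fun z =>
      Φ (p ++ a :: l :: y) (p ++ a :: (!l) :: z) := by
  unfold T
  rw [Av_append]
  simp only [Av_succ', Av_zero, List.append_assoc, List.cons_append, List.nil_append]

lemma T_succ' (s m : ℕ) (Φ : List Bool → List Bool → ℝ) :
    T s (m + 1) Φ = Av s fun p => A2 fun a => A2 fun l => Av m fun y => Av (m + 1) fun z =>
      Φ (p ++ a :: l :: y) (p ++ (!a) :: z) := by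
  unfold T
  refine Av_congr _ _ _ fun p _ => A2_congr _ _ fun a => ?_
  rw [Av_succ']

/-- the difference of the averages at two consecutive branching places -/
lemma T_diff (s m : ℕ) (Φ : List Bool → List Bool → ℝ) :
    T (s + 1) m Φ - T s (m + 1) Φ =
      Av s fun p => A2 fun a => A2 fun l => Av m fun y => Av m fun z => Av (m + 1) fun t =>
        (Φ (p ++ a :: l :: y) (p ++ a :: (!l) :: z) - Φ (p ++ a :: l :: y) (p ++ (!a) :: t)) := by
  rw [T_succ, T_succ', ← Av_sub]
  refine Av_congr _ _ _ fun p _ => ?_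
  rw [← A2_sub]
  refine A2_congr _ _ fun a => ?_
  rw [← A2_sub]
  refine A2_congr _ _ fun l => ?_
  rw [← Av_sub]
  refine Av_congr _ _ _ fun y _ => ?_
  simp only [Av_sub, Av_const]

end Pool.Agent.W326.HB
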