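import Pool.Agent.W326.HB.Fin

set_option autoImplicit false

namespace Pool.Agent.W326.HB

lemma gg_step (β : F → F → F → ℝ) (C B : ℝ) (hB : Bdd β C) (hd : Rel β) (hB0 : 0 ≤ B)
    (hCB : C ≤ B ^ 2) (n s m L : ℕ) (hs : 1 ≤ s) (hn : 2 * n ≤ s) (h1 : s + 2 ≤ L)
    (h2 : L < s + 2 + m) :
    |gg β (s + 1) m L - gg β s (m + 1) L| ≤ B / 2 ^ n := by
  have h := G_diff β C hB (GG β) (rel_B β hd) s m L hs h1 h2
  have h3 : C / 2 ^ s ≤ (B / 2 ^ n) ^ 2 := by
    rw [div_pow, ← pow_mul]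
    have h4 : (2 : ℝ) ^ (n * 2) ≤ 2 ^ s := pow_le_pow_right₀ (by norm_num) (by omega)
    have h5 : (0 : ℝ) < 2 ^ (n * 2) := by positivity
    calc C / 2 ^ s ≤ B ^ 2 / 2 ^ s := by gcongr
      _ ≤ B ^ 2 / 2 ^ (n * 2) := by gcongr
  have h6 : (0 : ℝ) ≤ B / 2 ^ n := by positivity
  exact abs_le_of_sq_le_sq (h.trans h3) h6

lemma gg_tele (β : F → F → F → ℝ) (C B : ℝ) (hB : Bdd β C) (hd : Rel β) (hB0 : 0 ≤ B)
    (hCB : C ≤ B ^ 2) (n s M L : ℕ) (hs : 1 ≤ s) (hn : 2 * n ≤ s) (hM : L < M) (i : ℕ)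
    (hi : s + i + 1 ≤ L) :
    |gg β (s + i) (M - (s + i) - 1) L - gg β s (M - s - 1) L| ≤ i * (B / 2 ^ n) := by
  induction i with
  | zero => simp
  | succ i ih =>
    have h1 := ih (by omega)
    have h2 := gg_step β C B hB hd hB0 hCB n (s + i) (M - (s + (i + 1)) - 1) L (by omega)
      (by omega) (by omega) (by omega)
    rw [show M - (s + (i + 1)) - 1 + 1 = M - (s + i) - 1 by omega] at h2
    rw [show s + i + 1 = s + (i + 1) by omega] at h2
    have h3 := abs_add_le (gg β (s + (i + 1)) (M - (s + (i + 1)) - 1) L -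
      gg β (s + i) (M - (s + i) - 1) L) (gg β (s + i) (M - (s + i) - 1) L - gg β s (M - s - 1) L)
    rw [sub_add_sub_cancel] at h3
    push_cast
    linarith

/-- the elementary inequality between the powers -/
lemma small (j : ℕ) (B : ℝ) (hj : 2 ≤ j) (hB0 : 0 ≤ B) (hB : B ≤ 2 ^ (j + 1)) :
    ((4 ^ j : ℕ) : ℝ) * (B / 2 ^ (4 ^ j)) ≤ (1 / 2 : ℝ) ^ (j + 1) / 2 := by
  have h1 : 4 * j + 3 ≤ 4 ^ j := by
    induction j, hj using Nat.le_induction with
    | base => norm_num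
    | succ j hj ih =>
      rw [pow_succ]
      have : 4 * j + 3 ≤ 4 ^ j := by
        clear ih hB
        induction j, hj using Nat.le_induction with
        | base => norm_num
        | succ j hj ih => rw [pow_succ]; omega
      omega
  have h2 : (2 : ℝ) ^ (4 * j + 3) ≤ 2 ^ (4 ^ j) := pow_le_pow_right₀ (by norm_num) h1
  have h3 : (0 : ℝ) < 2 ^ (4 * j + 3) := by positivity
  have h4 : ((4 ^ j : ℕ) : ℝ) = 2 ^ (2 * j) := by
    push_cast; rw [pow_mul]; norm_num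
  rw [h4]
  calc (2 : ℝ) ^ (2 * j) * (B / 2 ^ (4 ^ j)) ≤ (2 : ℝ) ^ (2 * j) * (2 ^ (j + 1) / 2 ^ (4 * j + 3)) := by
        gcongr
    _ = (1 / 2 : ℝ) ^ (j + 1) / 2 := by
        rw [one_div, inv_pow]
        have h5 : (2 : ℝ) ^ (4 * j + 3) = 2 ^ (2 * j) * 2 ^ (j + 1) * (2 ^ (j + 1) * 2) := by
          rw [← pow_add, ← pow_succ, ← pow_add]; congr 1; omega
        rw [h5]
        have h6 : (2 : ℝ) ^ (2 * j) ≠ 0 := by positivity
        have h7 : (2 : ℝ) ^ (j + 1) ≠ 0 := by positivity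
        field_simp

/-- the lower bound for a pair of branching places -/
lemma pair (β : F → F → F → ℝ) (C B : ℝ) (hB : Bdd β C) (hd : Rel β) (hB0 : 0 ≤ B)
    (hCB : C ≤ B ^ 2) (j : ℕ) (hj : 2 ≤ j) (hBj : B ≤ 2 ^ (j + 1)) (k i M : ℕ) (hi : i < 4 ^ j)
    (hM : 8 * 4 ^ j < M) :
    (1 / 8 : ℝ) * (1 / 4) ^ (j + 1) ≤ Q β k (3 * 4 ^ j + i) (M - (3 * 4 ^ j + i) - 1) +
      Q β k (4 * 4 ^ j + i) (M - (4 * 4 ^ j + i) - 1) := by
  have hL : 2 * 4 ^ (j + 1) = 8 * 4 ^ j := by rw [pow_succ]; omega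
  have hp : 0 < 4 ^ j := by positivity
  have a1 := XX_eq β hd k (3 * 4 ^ j + i) (M - (3 * 4 ^ j + i) - 1) (2 * 4 ^ (j + 1))
    (by omega) (by omega)
  have a2 := XX_eq β hd k (4 * 4 ^ j + i) (M - (4 * 4 ^ j + i) - 1) (2 * 4 ^ (j + 1))
    (by omega) (by omega)
  rw [T_H _ _ _ (by omega) (by omega) (by omega)] at a1 a2
  rw [show 3 * 4 ^ j + i + (M - (3 * 4 ^ j + i) - 1 + 1) = M by omega] at a1
  rw [show 4 * 4 ^ j + i + (M - (4 * 4 ^ j + i) - 1 + 1) = M by omega] at a2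
  rw [if_neg (by rw [pow_succ]; omega)] at a1
  rw [if_pos (by rw [pow_succ]; omega)] at a2
  have b := gg_tele β C B hB hd hB0 hCB (4 ^ j) (3 * 4 ^ j + i) M (2 * 4 ^ (j + 1)) (by omega)
    (by omega) (by omega) (4 ^ j) (by omega)
  rw [show 3 * 4 ^ j + i + 4 ^ j = 4 * 4 ^ j + i by omega] at b
  have c := (b.trans (small j B hj hB0 hBj))
  have c1 := (abs_le.1 c).1
  set x := XX β k (3 * 4 ^ j + i) (M - (3 * 4 ^ j + i) - 1) (2 * 4 ^ (j + 1)) with hx
  set y := XX β k (4 * 4 ^ j + i) (M - (4 * 4 ^ j + i) - 1) (2 * 4 ^ (j + 1)) with hy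
  have d : (1 / 2 : ℝ) ^ (j + 1) / 2 ≤ y - x := by linarith
  have e1 : x ^ 2 ≤ Q β k (3 * 4 ^ j + i) (M - (3 * 4 ^ j + i) - 1) := XX_sq_le _ _ _ _ _
  have e2 : y ^ 2 ≤ Q β k (4 * 4 ^ j + i) (M - (4 * 4 ^ j + i) - 1) := XX_sq_le _ _ _ _ _
  have f : (1 / 4 : ℝ) ^ (j + 1) = (1 / 2) ^ (j + 1) * (1 / 2) ^ (j + 1) := by
    rw [← mul_pow]; norm_num
  have g : (0 : ℝ) < (1 / 2) ^ (j + 1) := by positivity
  rw [f]
  have h : ((1 / 2 : ℝ) ^ (j + 1) / 2) ^ 2 ≤ (y - x) ^ 2 := by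
    apply pow_le_pow_left₀ (by positivity) d
  nlinarith [sq_nonneg (x + y)]

/-- each scale contributes a fixed amount -/
lemma scale (β : F → F → F → ℝ) (C B : ℝ) (hB : Bdd β C) (hd : Rel β) (hB0 : 0 ≤ B)
    (hCB : C ≤ B ^ 2) (j : ℕ) (hj : 2 ≤ j) (hBj : B ≤ 2 ^ (j + 1)) (k M : ℕ)
    (hM : 8 * 4 ^ j < M) :
    (1 / 32 : ℝ) ≤ ∑ s ∈ Finset.Ico (3 * 4 ^ j) (5 * 4 ^ j), Q β k s (M - s - 1) := by
  have hp : 0 < 4 ^ j := by positivity
  rw [← Finset.sum_Ico_consecutive _ (show 3 * 4 ^ j ≤ 4 * 4 ^ j by omega)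
    (show 4 * 4 ^ j ≤ 5 * 4 ^ j by omega), Finset.sum_Ico_eq_sum_range,
    Finset.sum_Ico_eq_sum_range]
  rw [show 4 * 4 ^ j - 3 * 4 ^ j = 4 ^ j by omega, show 5 * 4 ^ j - 4 * 4 ^ j = 4 ^ j by omega]
  rw [← Finset.sum_add_distrib]
  have h : ∑ _i ∈ Finset.range (4 ^ j), (1 / 8 : ℝ) * (1 / 4) ^ (j + 1) = 1 / 32 := by
    rw [Finset.sum_const, Finset.card_range, nsmul_eq_mul]
    push_cast
    have : (4 : ℝ) ^ j * (1 / 4) ^ j = 1 := by rw [← mul_pow]; norm_num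
    rw [pow_succ]
    linear_combination (1 / 32 : ℝ) * this
  rw [← h]
  apply Finset.sum_le_sum
  intro i hi
  rw [Finset.mem_range] at hi
  exact pair β C B hB hd hB0 hCB j hj hBj k i M hi hM

lemma many (β : F → F → F → ℝ) (C B : ℝ) (hB : Bdd β C) (hd : Rel β) (hB0 : 0 ≤ B)
    (hCB : C ≤ B ^ 2) (j0 : ℕ) (hj : 2 ≤ j0) (hBj : B ≤ 2 ^ (j0 + 1)) (k M I : ℕ)
    (hM : 8 * 4 ^ (j0 + I) < M) :
    (I : ℝ) / 32 ≤ ∑ s ∈ Finset.range (3 * 4 ^ (j0 + I)), Q β k s (M - s - 1) := by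
  induction I with
  | zero =>
    simp only [Nat.cast_zero, zero_div]
    exact Finset.sum_nonneg fun s _ => Q_nonneg β k s _
  | succ I ih =>
    have hle : 4 ^ (j0 + (I + 1)) = 4 * 4 ^ (j0 + I) := by
      rw [← Nat.add_assoc, pow_succ]; ring
    have h1 := ih (by omega)
    have h2 := scale β C B hB hd hB0 hCB (j0 + I) (by omega)
      (hBj.trans (pow_le_pow_right₀ (by norm_num) (by omega))) k M (by omega)
    have h3 : ∑ s ∈ Finset.range (3 * 4 ^ (j0 + I)), Q β k s (M - s - 1) +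
        ∑ s ∈ Finset.Ico (3 * 4 ^ (j0 + I)) (5 * 4 ^ (j0 + I)), Q β k s (M - s - 1) ≤
        ∑ s ∈ Finset.range (3 * 4 ^ (j0 + (I + 1))), Q β k s (M - s - 1) := by
      rw [Finset.sum_range_add_sum_Ico _ (by omega)]
      apply Finset.sum_le_sum_of_subset_of_nonneg
      · intro x hx
        rw [Finset.mem_range] at hx ⊢
        omega
      · intro x _ _
        exact Q_nonneg β k x _
    push_cast
    linarith

lemma shift_le (Z : ℕ → ℝ) (hZ : ∀ n, 0 ≤ Z n) (a R N : ℕ) (h : a + R ≤ N) :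
    ∑ i ∈ Finset.range R, Z (i + a) ≤ ∑ i ∈ Finset.range N, Z i := by
  have h1 : ∑ i ∈ Finset.range R, Z (i + a) = ∑ i ∈ Finset.Ico a (a + R), Z i := by
    rw [Finset.sum_Ico_eq_sum_range, Nat.add_sub_cancel_left]
    simp only [Nat.add_comm]
  rw [h1]
  apply Finset.sum_le_sum_of_subset_of_nonneg
  · intro x hx
    rw [Finset.mem_Ico] at hx
    rw [Finset.mem_range]
    omega
  · intro x _ _
    exact hZ x

/-- the upper bound over the box -/
lemma box (β : F → F → F → ℝ) (C : ℝ) (hB : Bdd β C) (R : ℕ) :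
    ∑ k ∈ Finset.range R, ∑ t ∈ Finset.range R, ∑ s ∈ Finset.range R,
      Q β k s (R + t - s - 1) ≤ 4 * (R : ℝ) ^ 2 * C := by
  set Z : ℕ → ℕ → ℕ → ℝ := fun N s m => if s ≤ N then Q β (N - s) s m else 0 with hZ
  have hZ0 : ∀ N s m, 0 ≤ Z N s m := by
    intro N s m
    simp only [hZ]
    split_ifs
    · exact Q_nonneg _ _ _ _
    · exact le_rfl
  have h1 : ∑ k ∈ Finset.range R, ∑ t ∈ Finset.range R, ∑ s ∈ Finset.range R,
      Q β k s (R + t - s - 1) = ∑ s ∈ Finset.range R, ∑ k ∈ Finset.range R,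
        ∑ t ∈ Finset.range R, Z (k + s) s (t + (R - 1 - s)) := by
    have h2 : ∀ k ∈ Finset.range R, ∑ t ∈ Finset.range R, ∑ s ∈ Finset.range R,
      Q β k s (R + t - s - 1) = ∑ s ∈ Finset.range R, ∑ t ∈ Finset.range R,
        Z (k + s) s (t + (R - 1 - s)) := by
      intro k _
      rw [Finset.sum_comm]
      refine Finset.sum_congr rfl fun s hs => Finset.sum_congr rfl fun t _ => ?_
      rw [Finset.mem_range] at hs
      simp only [hZ]
      rw [if_pos (by omega), show k + s - s = k by omega,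
        show t + (R - 1 - s) = R + t - s - 1 by omega]
    rw [Finset.sum_congr rfl h2, Finset.sum_comm]
  rw [h1]
  have h3 : ∑ s ∈ Finset.range R, ∑ k ∈ Finset.range R, ∑ t ∈ Finset.range R,
      Z (k + s) s (t + (R - 1 - s)) ≤ ∑ s ∈ Finset.range R, ∑ N ∈ Finset.range (2 * R),
        ∑ m ∈ Finset.range (2 * R), Z N s m := by
    apply Finset.sum_le_sum
    intro s hs
    rw [Finset.mem_range] at hs
    have h4 : ∑ k ∈ Finset.range R, ∑ t ∈ Finset.range R, Z (k + s) s (t + (R - 1 - s)) ≤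
        ∑ k ∈ Finset.range R, ∑ m ∈ Finset.range (2 * R), Z (k + s) s m :=
      Finset.sum_le_sum fun k _ => shift_le (fun m => Z (k + s) s m) (fun m => hZ0 _ _ _) _ _ _
        (by omega)
    refine h4.trans ?_
    exact shift_le (fun N => ∑ m ∈ Finset.range (2 * R), Z N s m)
      (fun N => Finset.sum_nonneg fun m _ => hZ0 _ _ _) _ _ _ (by omega)
  refine h3.trans ?_
  rw [Finset.sum_comm]
  have h5 : ∀ N ∈ Finset.range (2 * R), ∑ s ∈ Finset.range R, ∑ m ∈ Finset.range (2 * R),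
      Z N s m ≤ ∑ _m ∈ Finset.range (2 * R), C := by
    intro N _
    rw [Finset.sum_comm]
    apply Finset.sum_le_sum
    intro m _
    have h6 : ∑ s ∈ Finset.range R, Z N s m ≤ ∑ s ∈ Finset.range (N + 1), Q β (N - s) s m := by
      have h7 : ∑ s ∈ Finset.range R, Z N s m =
          ∑ s ∈ (Finset.range R).filter (fun s => s ≤ N), Q β (N - s) s m := by
        rw [Finset.sum_filter]
      rw [h7]
      apply Finset.sum_le_sum_of_subset_of_nonneg
      · intro x hx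
        rw [Finset.mem_filter] at hx
        rw [Finset.mem_range]
        omega
      · intro x _ _
        exact Q_nonneg _ _ _ _
    refine h6.trans ?_
    have h8 := sum_Q_le β C hB N m
    rw [← Finset.sum_range_reflect] at h8
    refine le_trans (le_of_eq ?_) h8
    apply Finset.sum_congr rfl
    intro s hs
    rw [Finset.mem_range] at hs
    rw [show N + 1 - 1 - s = N - s by omega, show N - (N - s) = s by omega]
  refine (Finset.sum_le_sum h5).trans (le_of_eq ?_)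
  rw [Finset.sum_const, Finset.sum_const, Finset.card_range, nsmul_eq_mul, nsmul_eq_mul]
  push_cast
  ring

/-- there is no bounded primitive -/
theorem no_beta (β : F → F → F → ℝ) (C : ℝ) (hB : Bdd β C) (hd : Rel β) : False := by
  obtain ⟨b, hb⟩ := exists_nat_ge C
  have hb1 : (C : ℝ) ≤ ((b : ℝ) + 1) ^ 2 := by
    have : (0 : ℝ) ≤ b := Nat.cast_nonneg b
    nlinarith
  have hj : ((b : ℝ) + 1) ≤ 2 ^ (b + 2 + 1) := by
    have h1 : b + 1 ≤ 2 ^ (b + 2 + 1) := by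
      have h2 : b < 2 ^ b := Nat.lt_two_pow_self
      have h3 : 2 ^ b ≤ 2 ^ (b + 2 + 1) := Nat.pow_le_pow_right (by norm_num) (by omega)
      omega
    exact_mod_cast h1
  obtain ⟨I, hI⟩ : ∃ I : ℕ, I = 128 * (b + 1) := ⟨_, rfl⟩
  obtain ⟨R, hR⟩ : ∃ R : ℕ, R = 8 * 4 ^ (b + 2 + I) + 1 := ⟨_, rfl⟩
  have h1 : ∑ k ∈ Finset.range R, ∑ t ∈ Finset.range R, (I : ℝ) / 32 ≤
      ∑ k ∈ Finset.range R, ∑ t ∈ Finset.range R, ∑ s ∈ Finset.range R,
      Q β k s (R + t - s - 1) := by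
    refine Finset.sum_le_sum fun k _ => Finset.sum_le_sum fun t _ => ?_
    refine (many β C ((b : ℝ) + 1) hB hd (by positivity) hb1 (b + 2) (by omega) hj k (R + t) I
      (by omega)).trans ?_
    apply Finset.sum_le_sum_of_subset_of_nonneg
    · intro x hx
      rw [Finset.mem_range] at hx ⊢
      omega
    · intro x _ _
      exact Q_nonneg _ _ _ _
  have h2 := h1.trans (box β C hB R)
  rw [Finset.sum_const, Finset.sum_const, Finset.card_range, nsmul_eq_mul, nsmul_eq_mul, hI] at h2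
  push_cast at h2
  have h3 : (0 : ℝ) < R := by
    have : 0 < R := by omega
    exact_mod_cast this
  have h4 : (0 : ℝ) < (R : ℝ) ^ 2 := by positivity
  nlinarith

end Pool.Agent.W326.HB
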