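import Pool.Agent.W326.HB.Words

set_option autoImplicit false
set_option linter.unusedSimpArgs false

namespace Pool.Agent.W326.HB

/-- the three words begin with the same letter -/
def S3 (l m r : Wd) : Prop := 1 ≤ lcp l m ∧ 1 ≤ lcp m r ∧ 1 ≤ lcp l r

instance (l m r : Wd) : Decidable (S3 l m r) := by unfold S3; infer_instance

/-- the primitive on words -/
noncomputable def bw (l m r : Wd) : ℝ := if S3 l m r then 0 else D l m r

/-- the cocycle on words -/
noncomputable def cw (l0 l1 l2 l3 : Wd) : ℝ := bw l1 l2 l3 - bw l0 l2 l3 + bw l0 l1 l3 - bw l0 l1 l2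

/-- contribution of a leg -/
noncomputable def Kw (l l1 l2 l3 : Wd) : ℝ :=
  if S3 l1 l2 l3 ∧ lcp l l1 = 0 then D l1 l2 l3 ^ 2 else 0

lemma Kw_nonneg (l l1 l2 l3 : Wd) : 0 ≤ Kw l l1 l2 l3 := by
  unfold Kw; split_ifs <;> positivity

lemma S3_all (l0 l1 l2 l3 : Wd) (h : S3 l1 l2 l3) (h' : 1 ≤ lcp l0 l1) :
    S3 l0 l2 l3 ∧ S3 l0 l1 l3 ∧ S3 l0 l1 l2 := by
  obtain ⟨h12, h23, h13⟩ := h
  have h02 := lcp_trans 1 _ _ _ h' h12
  have h03 := lcp_trans 1 _ _ _ h' h13
  exact ⟨⟨h02, h23, h03⟩, ⟨h', h13, h03⟩, ⟨h', h12, h02⟩⟩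

lemma cw_sq_le (l0 l1 l2 l3 : Wd) :
    cw l0 l1 l2 l3 ^ 2 ≤ Kw l0 l1 l2 l3 + Kw l1 l0 l2 l3 + Kw l2 l0 l1 l3 + Kw l3 l0 l1 l2 := by
  have hD : D l1 l2 l3 - D l0 l2 l3 + D l0 l1 l3 - D l0 l1 l2 = 0 := by
    unfold D; ring
  have n0 := Kw_nonneg l0 l1 l2 l3
  have n1 := Kw_nonneg l1 l0 l2 l3
  have n2 := Kw_nonneg l2 l0 l1 l3
  have n3 := Kw_nonneg l3 l0 l1 l2
  by_cases a0 : S3 l1 l2 l3
  · by_cases h' : 1 ≤ lcp l0 l1
    · obtain ⟨a1, a2, a3⟩ := S3_all l0 l1 l2 l3 a0 h'
      have : cw l0 l1 l2 l3 = 0 := by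
        unfold cw bw
        rw [if_pos a0, if_pos a1, if_pos a2, if_pos a3]; ring
      rw [this]
      nlinarith
    · have a1 : ¬ S3 l0 l2 l3 := fun h => h' (lcp_trans 1 _ _ _ h.2.2 (by
        rw [lcp_comm]; exact a0.2.2))
      have a2 : ¬ S3 l0 l1 l3 := fun h => h' h.1
      have a3 : ¬ S3 l0 l1 l2 := fun h => h' h.1
      have e1 : cw l0 l1 l2 l3 = - D l1 l2 l3 := by
        unfold cw bw
        rw [if_pos a0, if_neg a1, if_neg a2, if_neg a3]; linarith
      have e2 : Kw l0 l1 l2 l3 = D l1 l2 l3 ^ 2 := by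
        unfold Kw; rw [if_pos ⟨a0, by omega⟩]
      rw [e1, neg_sq, ← e2]
      linarith
  · by_cases a1 : S3 l0 l2 l3
    · have h' : ¬ 1 ≤ lcp l1 l0 := fun h => a0 (S3_all l1 l0 l2 l3 a1 h).1
      have h'' : ¬ 1 ≤ lcp l0 l1 := by rw [lcp_comm]; exact h'
      have a2 : ¬ S3 l0 l1 l3 := fun h => h'' h.1
      have a3 : ¬ S3 l0 l1 l2 := fun h => h'' h.1
      have e1 : cw l0 l1 l2 l3 = D l0 l2 l3 := by
        unfold cw bw
        rw [if_neg a0, if_pos a1, if_neg a2, if_neg a3]; linarith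
      have e2 : Kw l1 l0 l2 l3 = D l0 l2 l3 ^ 2 := by
        unfold Kw; rw [if_pos ⟨a1, by omega⟩]
      rw [e1, ← e2]
      linarith
    · by_cases a2 : S3 l0 l1 l3
      · have h' : ¬ 1 ≤ lcp l2 l0 := by
          intro h
          have := (S3_all l2 l0 l1 l3 a2 h).1
          exact a0 ⟨by rw [lcp_comm]; exact this.1, this.2.2, this.2.1⟩
        have a3 : ¬ S3 l0 l1 l2 := fun h => h' (by rw [lcp_comm]; exact h.2.2)
        have e1 : cw l0 l1 l2 l3 = - D l0 l1 l3 := by
          unfold cw bw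
          rw [if_neg a0, if_neg a1, if_pos a2, if_neg a3]; linarith
        have e2 : Kw l2 l0 l1 l3 = D l0 l1 l3 ^ 2 := by
          unfold Kw; rw [if_pos ⟨a2, by omega⟩]
        rw [e1, neg_sq, ← e2]
        linarith
      · by_cases a3 : S3 l0 l1 l2
        · have h' : ¬ 1 ≤ lcp l3 l0 := by
            intro h
            have := (S3_all l3 l0 l1 l2 a3 h).1
            refine a0 ⟨this.2.1, ?_, ?_⟩
            · rw [lcp_comm]; exact this.2.2
            · rw [lcp_comm]; exact this.1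
          have e1 : cw l0 l1 l2 l3 = D l0 l1 l2 := by
            unfold cw bw
            rw [if_neg a0, if_neg a1, if_neg a2, if_pos a3]; linarith
          have e2 : Kw l3 l0 l1 l2 = D l0 l1 l2 ^ 2 := by
            unfold Kw; rw [if_pos ⟨a3, by omega⟩]
          rw [e1, ← e2]
          linarith
        · have e1 : cw l0 l1 l2 l3 = 0 := by
            unfold cw bw
            rw [if_neg a0, if_neg a1, if_neg a2, if_neg a3]; linarith
          rw [e1]
          nlinarith

/-- the free group on two generators -/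
abbrev F := FreeGroup (Fin 2)

open FreeGroup in
/-- no cancellation: if `a` and `c` do not begin with the same letter, and `c` is not trivial -/
lemma toWord_inv_mul (a c : F) (h : lcp a.toWord c.toWord = 0) :
    (a⁻¹ * c).toWord = (a⁻¹).toWord ++ c.toWord := by
  have hred : FreeGroup.IsReduced ((a⁻¹).toWord ++ c.toWord) := by
    unfold FreeGroup.IsReduced
    rw [List.isChain_append]
    refine ⟨isReduced_toWord, isReduced_toWord, ?_⟩
    intro x hx y hy hxy
    rw [toWord_inv] at hx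
    unfold invRev at hx
    rw [List.getLast?_reverse, List.head?_map] at hx
    cases ha : a.toWord with
    | nil => rw [ha] at hx; simp at hx
    | cons s l =>
      cases hc : c.toWord with
      | nil => rw [hc] at hy; simp at hy
      | cons t m =>
        rw [ha] at hx
        rw [hc] at hy
        rw [ha, hc, lcp_cons_cons] at h
        simp only [List.head?_cons, Option.map_some, Option.mem_def, Option.some.injEq] at hx hy
        subst hx; subst hy
        by_cases hst : s = t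
        · simp [hst] at h
        · simp only at hxy ⊢
          have h2 : s.2 ≠ t.2 := fun h2 => hst (Prod.ext hxy h2)
          cases h3 : s.2 <;> cases h4 : t.2 <;> simp_all
  have h1 : (a⁻¹ * c) = FreeGroup.mk ((a⁻¹).toWord ++ c.toWord) := by
    rw [← FreeGroup.mul_mk, FreeGroup.mk_toWord, FreeGroup.mk_toWord]
  rw [h1, FreeGroup.toWord_mk, hred.reduce_eq]

/-- the sum over the group of the contributions of the leg ending in `1` -/
lemma sum_Kw_le (h1 h2 h3 : F) (s : Finset F) :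
    ∑ y ∈ s, Kw (y⁻¹).toWord (y⁻¹ * h1).toWord (y⁻¹ * h2).toWord (y⁻¹ * h3).toWord ≤ 96 := by
  set P := min (lcp h1.toWord h2.toWord) (min (lcp h2.toWord h3.toWord) (lcp h1.toWord h3.toWord))
    with hP
  have hsupp : ∀ y : F, Kw (y⁻¹).toWord (y⁻¹ * h1).toWord (y⁻¹ * h2).toWord (y⁻¹ * h3).toWord ≠ 0 →
      ∃ k < P, y = FreeGroup.mk (h1.toWord.take k) ∧ k = y.toWord.length ∧
        Kw (y⁻¹).toWord (y⁻¹ * h1).toWord (y⁻¹ * h2).toWord (y⁻¹ * h3).toWord =
          D (h1.toWord.drop k) (h2.toWord.drop k) (h3.toWord.drop k) ^ 2 := by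
    intro y hy
    unfold Kw at hy ⊢
    split_ifs at hy with hc
    · obtain ⟨⟨c12, c23, c13⟩, c0⟩ := hc
      have c02 : lcp (y⁻¹).toWord (y⁻¹ * h2).toWord = 0 := by
        by_contra hne
        have := lcp_trans 1 (y⁻¹).toWord (y⁻¹ * h2).toWord (y⁻¹ * h1).toWord (by omega)
          (by rw [lcp_comm]; exact c12)
        omega
      have c03 : lcp (y⁻¹).toWord (y⁻¹ * h3).toWord = 0 := by
        by_contra hne
        have := lcp_trans 1 (y⁻¹).toWord (y⁻¹ * h3).toWord (y⁻¹ * h1).toWord (by omega)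
          (by rw [lcp_comm]; exact c13)
        omega
      have w1 := toWord_inv_mul _ _ c0
      have w2 := toWord_inv_mul _ _ c02
      have w3 := toWord_inv_mul _ _ c03
      rw [inv_inv, mul_inv_cancel_left] at w1 w2 w3
      have l12 : lcp h1.toWord h2.toWord =
          y.toWord.length + lcp (y⁻¹ * h1).toWord (y⁻¹ * h2).toWord := by
        rw [w1, w2, lcp_append]
      have l23 : lcp h2.toWord h3.toWord =
          y.toWord.length + lcp (y⁻¹ * h2).toWord (y⁻¹ * h3).toWord := by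
        rw [w2, w3, lcp_append]
      have l13 : lcp h1.toWord h3.toWord =
          y.toWord.length + lcp (y⁻¹ * h1).toWord (y⁻¹ * h3).toWord := by
        rw [w1, w3, lcp_append]
      refine ⟨y.toWord.length, ?_, ?_, rfl, ?_⟩
      · rw [hP, lt_min_iff, lt_min_iff]
        omega
      · rw [w1, List.take_left' rfl, FreeGroup.mk_toWord]
      · rw [if_pos ⟨⟨c12, c23, c13⟩, c0⟩]
        congr 1
        conv_rhs => rw [w1, w2, w3]
        rw [List.drop_left' rfl, List.drop_left' rfl, List.drop_left' rfl]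
    · exact absurd rfl hy
  classical
  have hfilt : ∑ y ∈ s, Kw (y⁻¹).toWord (y⁻¹ * h1).toWord (y⁻¹ * h2).toWord (y⁻¹ * h3).toWord =
      ∑ y ∈ s.filter (fun y => Kw (y⁻¹).toWord (y⁻¹ * h1).toWord (y⁻¹ * h2).toWord
        (y⁻¹ * h3).toWord ≠ 0),
        D (h1.toWord.drop y.toWord.length) (h2.toWord.drop y.toWord.length)
          (h3.toWord.drop y.toWord.length) ^ 2 := by
    rw [← Finset.sum_filter_ne_zero]
    apply Finset.sum_congr rfl
    intro y hy
    rw [Finset.mem_filter] at hy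
    obtain ⟨k, _, _, hk, he⟩ := hsupp y hy.2
    rw [he, hk]
  rw [hfilt]
  have himg : ∑ y ∈ s.filter (fun y => Kw (y⁻¹).toWord (y⁻¹ * h1).toWord (y⁻¹ * h2).toWord
        (y⁻¹ * h3).toWord ≠ 0),
        D (h1.toWord.drop y.toWord.length) (h2.toWord.drop y.toWord.length)
          (h3.toWord.drop y.toWord.length) ^ 2 ≤
      ∑ k ∈ Finset.range P, D (h1.toWord.drop k) (h2.toWord.drop k) (h3.toWord.drop k) ^ 2 := by
    have hinj : Set.InjOn (fun y : F => y.toWord.length)
        (s.filter (fun y => Kw (y⁻¹).toWord (y⁻¹ * h1).toWord (y⁻¹ * h2).toWord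
          (y⁻¹ * h3).toWord ≠ 0) : Finset F) := by
      intro y hy z hz hyz
      rw [Finset.mem_coe, Finset.mem_filter] at hy hz
      obtain ⟨k, _, hk1, hk2, _⟩ := hsupp y hy.2
      obtain ⟨j, _, hj1, hj2, _⟩ := hsupp z hz.2
      simp only at hyz
      rw [hk1, hj1, hk2, hj2, hyz]
    rw [← Finset.sum_image (f := fun k => D (h1.toWord.drop k) (h2.toWord.drop k)
      (h3.toWord.drop k) ^ 2) hinj]
    apply Finset.sum_le_sum_of_subset_of_nonneg
    · intro k hk
      rw [Finset.mem_image] at hk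
      obtain ⟨y, hy, rfl⟩ := hk
      rw [Finset.mem_filter] at hy
      obtain ⟨k, hk0, hk1, hk2, _⟩ := hsupp y hy.2
      rw [Finset.mem_range, ← hk2]
      exact hk0
    · intro k _ _
      positivity
  refine himg.trans (sum_D_sq_le P _ _ _ ?_ ?_ ?_)
  · exact min_le_left _ _
  · exact (min_le_right _ _).trans (min_le_left _ _)
  · exact (min_le_right _ _).trans (min_le_right _ _)

end Pool.Agent.W326.HB
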